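import Mathlib

/-!
# GNS construction for left invariant forms on a group algebra
-/

set_option autoImplicit false

namespace Pool.Agent.W103.RC

open scoped ComplexConjugate

/-- A semi-inner product gives a Hilbert space. -/
theorem hilb (V : Type) [AddCommGroup V] [Module ℂ V] (B : V → V → ℂ)
    (hconj : ∀ a b, conj (B b a) = B a b) (hadd : ∀ a b c, B (a + b) c = B a c + B b c)
    (hsmul : ∀ (r : ℂ) a b, B (r • a) b = conj r * B a b) (hpos : ∀ a, 0 ≤ (B a a).re) :
    ∃ (H : Type) (_ : NormedAddCommGroup H) (_ : InnerProductSpace ℂ H) (_ : CompleteSpace H)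
      (ι : V →ₗ[ℂ] H), DenseRange ι ∧ ∀ a b, inner ℂ (ι a) (ι b) = B a b := by
  let core : PreInnerProductSpace.Core ℂ V :=
    { inner := B
      conj_inner_symm := hconj
      re_inner_nonneg := hpos
      add_left := hadd
      smul_left := fun a b r => hsmul r a b }
  letI : SeminormedAddCommGroup V :=
    @InnerProductSpace.Core.toSeminormedAddCommGroup ℂ V _ _ _ core
  letI : InnerProductSpace ℂ V := InnerProductSpace.ofCore core
  refine ⟨UniformSpace.Completion V, inferInstance, inferInstance, inferInstance,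
    (UniformSpace.Completion.toComplL (𝕜 := ℂ) (E := V)).toLinearMap, ?_, ?_⟩
  · exact UniformSpace.Completion.denseRange_coe
  · intro a b
    exact UniformSpace.Completion.inner_coe a b

section

variable {F : Type} [Group F]

/-- left multiplication in the group algebra -/
noncomputable def lm (w : F) : MonoidAlgebra ℂ F ≃ₗ[ℂ] MonoidAlgebra ℂ F where
  toFun a := MonoidAlgebra.of ℂ F w * a
  map_add' a b := mul_add _ _ _
  map_smul' r a := by simp
  invFun a := MonoidAlgebra.of ℂ F w⁻¹ * a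
  left_inv a := by
    show MonoidAlgebra.of ℂ F w⁻¹ * (MonoidAlgebra.of ℂ F w * a) = a
    rw [← mul_assoc, ← map_mul, inv_mul_cancel, map_one, one_mul]
  right_inv a := by
    show MonoidAlgebra.of ℂ F w * (MonoidAlgebra.of ℂ F w⁻¹ * a) = a
    rw [← mul_assoc, ← map_mul, mul_inv_cancel, map_one, one_mul]

theorem lm_apply (w : F) (a : MonoidAlgebra ℂ F) : lm w a = MonoidAlgebra.of ℂ F w * a := rfl

/-- GNS construction. -/
theorem gns (B : MonoidAlgebra ℂ F → MonoidAlgebra ℂ F → ℂ)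
    (hconj : ∀ a b, conj (B b a) = B a b) (hadd : ∀ a b c, B (a + b) c = B a c + B b c)
    (hsmul : ∀ (r : ℂ) a b, B (r • a) b = conj r * B a b) (hpos : ∀ a, 0 ≤ (B a a).re)
    (hinv : ∀ (w : F) a b, B (MonoidAlgebra.of ℂ F w * a) (MonoidAlgebra.of ℂ F w * b) = B a b) :
    ∃ (H : Type) (_ : NormedAddCommGroup H) (_ : InnerProductSpace ℂ H) (_ : CompleteSpace H)
      (ρ : F →* unitary (H →L[ℂ] H)) (ι : MonoidAlgebra ℂ F →ₗ[ℂ] H), DenseRange ι ∧
      (∀ a b, inner ℂ (ι a) (ι b) = B a b) ∧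
      ∀ w a, (ρ w : H →L[ℂ] H) (ι a) = ι (MonoidAlgebra.of ℂ F w * a) := by
  obtain ⟨H, i1, i2, i3, ι, hd, hι⟩ := hilb (MonoidAlgebra ℂ F) B hconj hadd hsmul hpos
  have hn : ∀ (w : F) (a : MonoidAlgebra ℂ F), ‖ι (lm w a)‖ = ‖ι a‖ := by
    intro w a
    have h1 : ‖ι (lm w a)‖ ^ 2 = ‖ι a‖ ^ 2 := by
      rw [← inner_self_eq_norm_sq (𝕜 := ℂ), ← inner_self_eq_norm_sq (𝕜 := ℂ), hι, hι, lm_apply,
        hinv]
    exact (sq_eq_sq₀ (norm_nonneg _) (norm_nonneg _)).1 h1
  let U : F → (H ≃ₗᵢ[ℂ] H) := fun w => (lm w).extendOfIsometry ι ι hd hd (hn w)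
  have hU : ∀ w a, U w (ι a) = ι (MonoidAlgebra.of ℂ F w * a) := by
    intro w a
    exact LinearEquiv.extendOfIsometry_eq (lm w) ι ι hd hd (hn w) a
  have hext : ∀ (f g : H ≃ₗᵢ[ℂ] H), (∀ a, f (ι a) = g (ι a)) → f = g := by
    intro f g h
    ext x
    exact congrFun (hd.equalizer f.continuous g.continuous (funext h)) x
  let R : F →* (H ≃ₗᵢ[ℂ] H) :=
    { toFun := U
      map_one' := by
        apply hext
        intro a
        rw [hU, map_one, one_mul]
        rfl
      map_mul' := fun v w => by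
        apply hext
        intro a
        show U (v * w) (ι a) = U v (U w (ι a))
        rw [hU, hU, hU, (MonoidAlgebra.of ℂ F).map_mul v w, mul_assoc] }
  refine ⟨H, i1, i2, i3, (Unitary.linearIsometryEquiv.symm.toMonoidHom).comp R, ι, hd, hι, ?_⟩
  intro w a
  exact hU w a

end

end Pool.Agent.W103.RC
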