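import Pool.Agent.W661.RC.Stm2
import Pool.Agent.W103.RC.Gns

/-!
# PTC: compactness of approximate representations
-/

set_option autoImplicit false

namespace Pool.Agent.W103.RC

open Pool.Agent.W661.RC Filter Topology
open scoped ComplexConjugate

section reps

variable {F : Type} [Group F] {H : Type} [NormedAddCommGroup H] [InnerProductSpace ℂ H]
  [CompleteSpace H]

/-- The operator of an element of the group algebra. -/
noncomputable def Pa (ρ : F →* unitary (H →L[ℂ] H)) : MonoidAlgebra ℂ F →ₐ[ℂ] (H →L[ℂ] H) :=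
  MonoidAlgebra.lift ℂ (H →L[ℂ] H) F ((unitary (H →L[ℂ] H)).subtype.comp ρ)

theorem Pa_of (ρ : F →* unitary (H →L[ℂ] H)) (w : F) :
    Pa ρ (MonoidAlgebra.of ℂ F w) = (ρ w : H →L[ℂ] H) := by
  unfold Pa
  rw [MonoidAlgebra.lift_of]
  rfl

/-- The form of a representation and a vector. -/
noncomputable def frm (ρ : F →* unitary (H →L[ℂ] H)) (ξ : H) (a b : MonoidAlgebra ℂ F) : ℂ :=
  inner ℂ (Pa ρ a ξ) (Pa ρ b ξ)

theorem frm_re (ρ : F →* unitary (H →L[ℂ] H)) (ξ : H) (a : MonoidAlgebra ℂ F) :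
    (frm ρ ξ a a).re = ‖Pa ρ a ξ‖ ^ 2 :=
  inner_self_eq_norm_sq (𝕜 := ℂ) (Pa ρ a ξ)

theorem unit_norm (u : unitary (H →L[ℂ] H)) (x : H) : ‖(u : H →L[ℂ] H) x‖ = ‖x‖ :=
  Unitary.norm_map u x

/-- The `ℓ¹` norm on the group algebra. -/
noncomputable def l1 (a : MonoidAlgebra ℂ F) : ℝ := a.coeff.sum fun _ z => ‖z‖

theorem l1_nonneg (a : MonoidAlgebra ℂ F) : 0 ≤ l1 a :=
  Finset.sum_nonneg fun _ _ => norm_nonneg _

theorem Pa_norm (ρ : F →* unitary (H →L[ℂ] H)) (a : MonoidAlgebra ℂ F) (ξ : H) :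
    ‖Pa ρ a ξ‖ ≤ l1 a * ‖ξ‖ := by
  unfold Pa l1
  rw [MonoidAlgebra.lift_apply]
  unfold Finsupp.sum
  rw [ContinuousLinearMap.sum_apply, Finset.sum_mul]
  refine le_trans (norm_sum_le _ _) (Finset.sum_le_sum fun w _ => ?_)
  rw [smul_apply, norm_smul]
  refine mul_le_mul_of_nonneg_left ?_ (norm_nonneg _)
  exact (unit_norm (ρ w) ξ).le

theorem frm_bound (ρ : F →* unitary (H →L[ℂ] H)) (ξ : H) (a b : MonoidAlgebra ℂ F) :
    ‖frm ρ ξ a b‖ ≤ l1 a * l1 b * ‖ξ‖ ^ 2 := by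
  have h1 := norm_inner_le_norm (𝕜 := ℂ) (Pa ρ a ξ) (Pa ρ b ξ)
  have h2 := Pa_norm ρ a ξ
  have h3 := Pa_norm ρ b ξ
  calc ‖frm ρ ξ a b‖ ≤ ‖Pa ρ a ξ‖ * ‖Pa ρ b ξ‖ := h1
    _ ≤ (l1 a * ‖ξ‖) * (l1 b * ‖ξ‖) :=
        mul_le_mul h2 h3 (norm_nonneg _) (mul_nonneg (l1_nonneg a) (norm_nonneg _))
    _ = l1 a * l1 b * ‖ξ‖ ^ 2 := by ring

end reps

/-- The algebraic properties of a form on the group algebra. -/
structure Fm {F : Type} [Group F] (B : MonoidAlgebra ℂ F → MonoidAlgebra ℂ F → ℂ) : Prop where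
  cj : ∀ a b, conj (B b a) = B a b
  ad : ∀ a b c, B (a + b) c = B a c + B b c
  sm : ∀ (r : ℂ) a b, B (r • a) b = conj r * B a b
  ps : ∀ a, 0 ≤ (B a a).re
  iv : ∀ (w : F) a b, B (MonoidAlgebra.of ℂ F w * a) (MonoidAlgebra.of ℂ F w * b) = B a b
  one : B 1 1 = 1

theorem fm_frm {F : Type} [Group F] {H : Type} [NormedAddCommGroup H] [InnerProductSpace ℂ H]
    [CompleteSpace H] (ρ : F →* unitary (H →L[ℂ] H)) (ξ : H) (hξ : ξ ≠ 0) :
    Fm (fun a b => frm ρ ξ a b / (‖ξ‖ ^ 2 : ℝ)) := by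
  have h0 : ((‖ξ‖ ^ 2 : ℝ) : ℂ) ≠ 0 := by
    have : (‖ξ‖ ^ 2 : ℝ) ≠ 0 := by positivity
    exact_mod_cast this
  refine ⟨?_, ?_, ?_, ?_, ?_, ?_⟩
  · intro a b
    show conj (frm ρ ξ b a / (‖ξ‖ ^ 2 : ℝ)) = frm ρ ξ a b / (‖ξ‖ ^ 2 : ℝ)
    rw [map_div₀, Complex.conj_ofReal]
    congr 1
    exact inner_conj_symm (𝕜 := ℂ) _ _
  · intro a b c
    show frm ρ ξ (a + b) c / (‖ξ‖ ^ 2 : ℝ) = frm ρ ξ a c / (‖ξ‖ ^ 2 : ℝ) +
      frm ρ ξ b c / (‖ξ‖ ^ 2 : ℝ)
    unfold frm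
    rw [map_add, add_apply, inner_add_left, add_div]
  · intro r a b
    show frm ρ ξ (r • a) b / (‖ξ‖ ^ 2 : ℝ) = conj r * (frm ρ ξ a b / (‖ξ‖ ^ 2 : ℝ))
    unfold frm
    rw [map_smul, smul_apply, inner_smul_left, mul_div_assoc]
  · intro a
    show 0 ≤ (frm ρ ξ a a / (‖ξ‖ ^ 2 : ℝ)).re
    rw [Complex.div_ofReal_re, frm_re]
    positivity
  · intro w a b
    show frm ρ ξ (MonoidAlgebra.of ℂ F w * a) (MonoidAlgebra.of ℂ F w * b) / (‖ξ‖ ^ 2 : ℝ) =
      frm ρ ξ a b / (‖ξ‖ ^ 2 : ℝ)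
    congr 1
    unfold frm
    rw [map_mul (Pa ρ), map_mul (Pa ρ), Pa_of]
    exact Unitary.inner_map_map (ρ w) _ _
  · show frm ρ ξ 1 1 / (‖ξ‖ ^ 2 : ℝ) = 1
    unfold frm
    rw [map_one]
    have : inner ℂ ((1 : H →L[ℂ] H) ξ) ((1 : H →L[ℂ] H) ξ) = ((‖ξ‖ ^ 2 : ℝ) : ℂ) := by
      rw [one_apply_eq_self, inner_self_eq_norm_sq_to_K]
      push_cast
      rfl
    rw [this, div_self h0]

section smo

/-- The element of the group algebra of the lazy random walk. -/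
noncomputable def mk (k : ℕ) : MonoidAlgebra ℂ (FreeGroup (Fin k)) :=
  (1 / 2 : ℂ) • 1 + (1 / (2 * (2 * k + 1)) : ℂ) •
    (1 + ∑ s : Fin k, (MonoidAlgebra.of ℂ (FreeGroup (Fin k)) (FreeGroup.of s) +
      MonoidAlgebra.of ℂ (FreeGroup (Fin k)) (FreeGroup.of s)⁻¹))

theorem Pa_mk {k : ℕ} {H : Type} [NormedAddCommGroup H] [InnerProductSpace ℂ H] [CompleteSpace H]
    (ρ : FreeGroup (Fin k) →* unitary (H →L[ℂ] H)) : Pa ρ (mk k) = Mk ρ := by
  unfold mk Mk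
  rw [map_add, map_smul, map_smul, map_add, map_one, map_sum]
  simp only [map_add, Pa_of]

/-- The condition `Smo` in terms of the form. -/
def SmoB {k : ℕ} (K : ℕ) (C η : ℝ)
    (B : MonoidAlgebra ℂ (FreeGroup (Fin k)) → MonoidAlgebra ℂ (FreeGroup (Fin k)) → ℂ) : Prop :=
  ∑ s : Fin k, (B ((MonoidAlgebra.of ℂ _ (FreeGroup.of s) - 1) * mk k ^ K)
    ((MonoidAlgebra.of ℂ _ (FreeGroup.of s) - 1) * mk k ^ K)).re ≤ η * (B 1 1).re ∧
  (B (mk k ^ K - 1) (mk k ^ K - 1)).re ≤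
    C * ∑ s : Fin k, (B (MonoidAlgebra.of ℂ _ (FreeGroup.of s) - 1)
      (MonoidAlgebra.of ℂ _ (FreeGroup.of s) - 1)).re + η * (B 1 1).re

theorem smo_iff {k : ℕ} {H : Type} [NormedAddCommGroup H] [InnerProductSpace ℂ H]
    [CompleteSpace H] (ρ : FreeGroup (Fin k) →* unitary (H →L[ℂ] H)) (K : ℕ) (C η : ℝ) (ξ : H) :
    Smo ρ K C η ξ ↔ SmoB K C η (frm ρ ξ) := by
  have h1 : ∀ s : Fin k, (frm ρ ξ ((MonoidAlgebra.of ℂ _ (FreeGroup.of s) - 1) * mk k ^ K)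
      ((MonoidAlgebra.of ℂ _ (FreeGroup.of s) - 1) * mk k ^ K)).re =
      ‖(ρ (FreeGroup.of s) : H →L[ℂ] H) ((Mk ρ ^ K) ξ) - (Mk ρ ^ K) ξ‖ ^ 2 := by
    intro s
    rw [frm_re, map_mul (Pa ρ), map_sub, Pa_of, map_one, map_pow, Pa_mk]
    rfl
  have h2 : (frm ρ ξ (mk k ^ K - 1) (mk k ^ K - 1)).re = ‖(Mk ρ ^ K) ξ - ξ‖ ^ 2 := by
    rw [frm_re, map_sub, map_one, map_pow, Pa_mk]
    rfl
  have h3 : ∀ s : Fin k, (frm ρ ξ (MonoidAlgebra.of ℂ _ (FreeGroup.of s) - 1)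
      (MonoidAlgebra.of ℂ _ (FreeGroup.of s) - 1)).re =
      ‖(ρ (FreeGroup.of s) : H →L[ℂ] H) ξ - ξ‖ ^ 2 := by
    intro s
    rw [frm_re, map_sub, Pa_of, map_one]
    rfl
  have h4 : (frm ρ ξ 1 1).re = ‖ξ‖ ^ 2 := by
    rw [frm_re, map_one]
    rfl
  unfold Smo SmoB
  simp only [h1, h2, h3, h4]

theorem smoB_scale {k : ℕ} (K : ℕ) (C η : ℝ)
    (B : MonoidAlgebra ℂ (FreeGroup (Fin k)) → MonoidAlgebra ℂ (FreeGroup (Fin k)) → ℂ)
    (r : ℝ) (hr : 0 < r) (h : SmoB K C η (fun a b => B a b / (r : ℂ))) : SmoB K C η B := by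
  unfold SmoB at h ⊢
  simp only [Complex.div_ofReal_re] at h
  rw [← Finset.sum_div, ← Finset.sum_div] at h
  obtain ⟨h1, h2⟩ := h
  constructor
  · rw [div_le_iff₀ hr] at h1
    calc _ ≤ _ := h1
      _ = _ := by field_simp
  · rw [div_le_iff₀ hr] at h2
    calc _ ≤ _ := h2
      _ = _ := by field_simp

end smo

theorem main : PtcP := by
  classical
  intro k N hN K C η hη hyp
  by_contra hcon
  push Not at hcon
  -- the forms of the counterexamples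
  have key : ∀ i : Finset N × ℕ,
      ∃ B : MonoidAlgebra ℂ (FreeGroup (Fin k)) → MonoidAlgebra ℂ (FreeGroup (Fin k)) → ℂ,
        Fm B ∧ (∀ a b, ‖B a b‖ ≤ l1 a * l1 b) ∧
        (∀ w : N, w ∈ i.1 → (B (MonoidAlgebra.of ℂ _ (w : FreeGroup (Fin k)) - 1)
          (MonoidAlgebra.of ℂ _ (w : FreeGroup (Fin k)) - 1)).re ≤ (1 / ((i.2 : ℝ) + 1)) ^ 2) ∧
        ¬ SmoB K C (2 * η) B := by
    intro i
    obtain ⟨H, i1, i2, i3, ρ, ξ, h1, h2⟩ := hcon (1 / ((i.2 : ℝ) + 1)) (by positivity)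
      (i.1.image Subtype.val) (by
        intro w hw
        rw [Finset.mem_image] at hw
        obtain ⟨v, _, rfl⟩ := hw
        exact v.2)
    have hξ : ξ ≠ 0 := by
      rintro rfl
      apply h2
      unfold Smo
      simp
    have hpos : 0 < ‖ξ‖ ^ 2 := by positivity
    refine ⟨fun a b => frm ρ ξ a b / (‖ξ‖ ^ 2 : ℝ), fm_frm ρ ξ hξ, ?_, ?_, ?_⟩
    · intro a b
      show ‖frm ρ ξ a b / (‖ξ‖ ^ 2 : ℝ)‖ ≤ _
      rw [norm_div, Complex.norm_real, Real.norm_of_nonneg hpos.le, div_le_iff₀ hpos]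
      exact frm_bound ρ ξ a b
    · intro w hw
      show (frm ρ ξ (MonoidAlgebra.of ℂ _ (w : FreeGroup (Fin k)) - 1)
          (MonoidAlgebra.of ℂ _ (w : FreeGroup (Fin k)) - 1) / (‖ξ‖ ^ 2 : ℝ)).re ≤ _
      rw [Complex.div_ofReal_re, frm_re, map_sub, Pa_of, map_one, div_le_iff₀ hpos]
      have h3 := h1 w (Finset.mem_image.2 ⟨w, hw, rfl⟩)
      have h4 : ‖((ρ (w : FreeGroup (Fin k)) : H →L[ℂ] H) - 1) ξ‖ ≤
          1 / ((i.2 : ℝ) + 1) * ‖ξ‖ := h3
      calc _ ≤ (1 / ((i.2 : ℝ) + 1) * ‖ξ‖) ^ 2 := pow_le_pow_left₀ (norm_nonneg _) h4 2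
        _ = _ := by ring
    · intro h
      exact h2 ((smo_iff ρ K C (2 * η) ξ).2 (smoB_scale K C (2 * η) _ _ hpos h))
  choose B hfm hbd hR hns using key
  -- limits along an ultrafilter
  let U : Ultrafilter (Finset N × ℕ) := Ultrafilter.of atTop
  have hU : (U : Filter (Finset N × ℕ)) ≤ atTop := Ultrafilter.of_le _
  have hlim : ∀ a b, ∃ z : ℂ, Tendsto (fun i => B i a b) U (𝓝 z) := by
    intro a b
    obtain ⟨z, _, hz⟩ := (isCompact_closedBall (0 : ℂ) (l1 a * l1 b)).ultrafilter_le_nhds'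
      (U.map (fun i => B i a b)) (by
        show (fun i => B i a b) ⁻¹' _ ∈ U
        refine Filter.mem_of_superset Filter.univ_mem (fun i _ => ?_)
        rw [Set.mem_preimage, mem_closedBall_zero_iff]
        exact hbd i a b)
    exact ⟨z, hz⟩
  choose L hL using hlim
  have hLfm : Fm L := by
    refine ⟨?_, ?_, ?_, ?_, ?_, ?_⟩
    · intro a b
      have h1 := (Complex.continuous_conj.tendsto _).comp (hL b a)
      refine tendsto_nhds_unique h1 ?_
      refine (hL a b).congr (fun i => ?_)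
      exact ((hfm i).cj a b).symm
    · intro a b c
      have h1 := (hL a c).add (hL b c)
      refine tendsto_nhds_unique (hL (a + b) c) ?_
      refine h1.congr (fun i => ?_)
      exact ((hfm i).ad a b c).symm
    · intro r a b
      have h1 := (hL a b).const_mul (conj r)
      refine tendsto_nhds_unique (hL (r • a) b) ?_
      refine h1.congr (fun i => ?_)
      exact ((hfm i).sm r a b).symm
    · intro a
      have h1 := (Complex.continuous_re.tendsto _).comp (hL a a)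
      exact ge_of_tendsto' h1 (fun i => (hfm i).ps a)
    · intro w a b
      refine tendsto_nhds_unique (hL (MonoidAlgebra.of ℂ _ w * a) (MonoidAlgebra.of ℂ _ w * b)) ?_
      refine (hL a b).congr (fun i => ?_)
      exact ((hfm i).iv w a b).symm
    · refine tendsto_nhds_unique (hL 1 1) ?_
      refine tendsto_const_nhds.congr (fun i => ?_)
      exact ((hfm i).one).symm
  -- elements of `N` act trivially
  have hN0 : ∀ w ∈ N, (L (MonoidAlgebra.of ℂ _ w - 1) (MonoidAlgebra.of ℂ _ w - 1)).re ≤ 0 := by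
    intro w hw
    have h1 := (Complex.continuous_re.tendsto _).comp
      (hL (MonoidAlgebra.of ℂ _ w - 1) (MonoidAlgebra.of ℂ _ w - 1))
    have h2 : Tendsto (fun i : Finset N × ℕ => (1 / ((i.2 : ℝ) + 1)) ^ 2) U (𝓝 0) := by
      have h3 : Tendsto (fun n : ℕ => (1 / ((n : ℝ) + 1)) ^ 2) atTop (𝓝 0) := by
        have := (tendsto_one_div_add_atTop_nhds_zero_nat (𝕜 := ℝ)).pow 2
        simpa using this
      have h4 : Tendsto (fun i : Finset N × ℕ => i.2) atTop atTop := by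
        rw [← Filter.prod_atTop_atTop_eq]
        exact tendsto_snd
      exact (h3.comp h4).mono_left hU
    refine le_of_tendsto_of_tendsto h1 h2 ?_
    have h5 : ∀ᶠ i : Finset N × ℕ in atTop, (⟨w, hw⟩ : N) ∈ i.1 := by
      filter_upwards [Filter.eventually_ge_atTop (({⟨w, hw⟩} : Finset N), 0)] with i hi
      exact hi.1 (Finset.mem_singleton_self _)
    filter_upwards [hU h5] with i hi
    exact hR i ⟨w, hw⟩ hi
  obtain ⟨H, i1, i2, i3, ρ, ι, hd, hι, hρ⟩ := gns L hLfm.cj hLfm.ad hLfm.sm hLfm.ps hLfm.iv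
  have hPa : ∀ a, Pa ρ a (ι 1) = ι a := by
    intro a
    induction a using MonoidAlgebra.induction_on with
    | of w => rw [Pa_of, hρ, mul_one]
    | add x y hx hy => rw [map_add, add_apply, hx, hy, map_add]
    | smul r x hx => rw [map_smul, smul_apply, hx, map_smul]
  have hfrm : frm ρ (ι 1) = L := by
    funext a b
    unfold frm
    rw [hPa, hPa, hι]
  have htriv : ∀ w ∈ N, ρ w = 1 := by
    intro w hw
    have hof : ∀ v : FreeGroup (Fin k), ι (MonoidAlgebra.of ℂ _ w * MonoidAlgebra.of ℂ _ v) =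
        ι (MonoidAlgebra.of ℂ _ v) := by
      intro v
      rw [← sub_eq_zero, ← map_sub, ← norm_eq_zero]
      have e1 : MonoidAlgebra.of ℂ _ w * MonoidAlgebra.of ℂ _ v - MonoidAlgebra.of ℂ _ v =
          MonoidAlgebra.of ℂ _ v * (MonoidAlgebra.of ℂ _ (v⁻¹ * w * v) - 1) := by
        rw [mul_sub, mul_one, ← map_mul, ← map_mul]
        congr 2
        group
      have e2 : ‖ι (MonoidAlgebra.of ℂ _ w * MonoidAlgebra.of ℂ _ v -
          MonoidAlgebra.of ℂ _ v)‖ ^ 2 ≤ 0 := by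
        rw [← inner_self_eq_norm_sq (𝕜 := ℂ), hι, e1, hLfm.iv]
        have h6 : v⁻¹ * w * v ∈ N := by
          have := hN.conj_mem w hw v⁻¹
          rwa [inv_inv] at this
        exact hN0 _ h6
      exact pow_eq_zero_iff (two_ne_zero) |>.1 (le_antisymm e2 (by positivity))
    have hall : ∀ a, (ρ w : H →L[ℂ] H) (ι a) = ι a := by
      intro a
      induction a using MonoidAlgebra.induction_on with
      | of v => rw [hρ, hof]
      | add x y hx hy => rw [map_add, map_add, hx, hy]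
      | smul r x hx => rw [map_smul, map_smul, hx]
    apply Subtype.ext
    apply ContinuousLinearMap.ext
    intro x
    have h7 := hd.equalizer (ρ w : H →L[ℂ] H).continuous (continuous_id (X := H))
      (funext fun a => hall a)
    exact congrFun h7 x
  have hS := hyp H ρ htriv (ι 1)
  rw [smo_iff, hfrm] at hS
  obtain ⟨hS1, hS2⟩ := hS
  rw [hLfm.one] at hS1 hS2
  -- contradiction
  have hre : ∀ a, Tendsto (fun i => (B i a a).re) U (𝓝 (L a a).re) := fun a =>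
    (Complex.continuous_re.tendsto _).comp (hL a a)
  have t1 := tendsto_finsetSum (Finset.univ : Finset (Fin k)) (fun s _ =>
    hre ((MonoidAlgebra.of ℂ _ (FreeGroup.of s) - 1) * mk k ^ K))
  have t2 := hre (mk k ^ K - 1)
  have t3 := tendsto_finsetSum (Finset.univ : Finset (Fin k)) (fun s _ =>
    hre (MonoidAlgebra.of ℂ _ (FreeGroup.of s) - 1))
  have t4 := (t3.const_mul C).add_const (2 * η)
  have ev1 := t1.eventually_lt_const (show _ < 2 * η by
    rw [Complex.one_re] at hS1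
    linarith)
  have ev2 := t2.eventually_lt t4 (by
    rw [Complex.one_re] at hS2
    linarith)
  obtain ⟨i, hi1, hi2⟩ := (ev1.and ev2).exists
  apply hns i
  unfold SmoB
  rw [(hfm i).one, Complex.one_re, mul_one]
  exact ⟨hi1.le, hi2.le⟩

end Pool.Agent.W103.RC
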